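import Mathlib
import Pool.Agent.H27.G.R_seed8.H306R2.Arith
import Pool.Agent.H27.G.R_seed8.H306R2.Karamata2
import Pool.Agent.H27.G.R_seed8.H306R2.Box

set_option autoImplicit false

/-!
Definitions for the sixth moment lower bound (test functions with rational frequencies).
-/

namespace Pool.Agent.H306R2.SM

open Finset Filter Topology MeasureTheory

noncomputable section

/-- The Gamma weight; for `0 < δ` a probability density on `(0,∞)`. -/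
def om (k : ℕ) (δ t : ℝ) : ℝ := δ ^ (k + 1) * t ^ k * Real.exp (-(δ * t)) / (k.factorial : ℝ)

/-- `X(s) = 2 (2π)^{-s} Γ(s) cos(πs/2)`, so that `ζ(1-s) = X(s) ζ(s)` (Mathlib: `riemannZeta_one_sub`). -/
def Xf (s : ℂ) : ℂ :=
  2 * (2 * (Real.pi : ℂ)) ^ (-s) * Complex.Gamma s * Complex.cos ((Real.pi : ℂ) * s / 2)

/-- point of the critical line -/
def cl (t : ℝ) : ℂ := 1 / 2 + (t : ℂ) * Complex.I

/-- `ef θ t = exp(i θ t)` -/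
def ef (θ t : ℝ) : ℂ := Complex.exp (((θ * t : ℝ) : ℂ) * Complex.I)

/-- `d_3(n)`; note `dA_nat 3 : dA 3 = zR ^ 3` in `Pool.Agent.H306R2.Arith`. -/
def d3 (n : ℕ) : ℝ := dv 3 n

/-- `Y = T/(2πk)`, i.e. `1/(2πδ)` for `δ = k/T`. -/
def Yf (k : ℕ) (T : ℝ) : ℝ := T / (2 * Real.pi * k)

/-- analytic replacement of `om k δ t * Xf s`, `s = 1/2+it`. -/
def Gf (k : ℕ) (δ : ℝ) (s : ℂ) : ℂ :=
  ((δ ^ (k + 1) * (2 * Real.pi) ^ k / (k.factorial : ℝ) : ℝ) : ℂ) * Complex.Gamma (s + k) *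
    (2 * Real.pi * Complex.I + 2 * Real.pi * δ) ^ (-s - (k : ℂ))

/-- additive character `e(a/h)` for an integer `a` -/
def ee (h : ℕ) (a : ℤ) : ℂ := Complex.exp (2 * Real.pi * Complex.I * ((a : ℂ) / (h : ℂ)))

/-- normalised Ramanujan sum `c_h(n)/φ(h)` : average of `e(un/h)` over the units `u` mod `h`. -/
def rc (h n : ℕ) : ℂ :=
  (∑ u ∈ (range h).filter (fun u => Nat.Coprime u h), ee h ((u : ℤ) * n)) / (h.totient : ℂ)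

/-- `SS = Σ d3(n) (nl/h)^k exp(-(2πi+1/Y) nl/h)` -/
def SS (k h l : ℕ) (Y : ℝ) : ℂ :=
  ∑' n : ℕ, ((d3 n * ((n : ℝ) * l / h) ^ k * Real.exp (-((n : ℝ) * l / h / Y)) : ℝ) : ℂ) *
    ee h (-((n : ℤ) * l))

/-- main part: `e(-nl/h)` replaced by `c_h(n)/φ(h)` -/
def MM (k h l : ℕ) (Y : ℝ) : ℂ :=
  ∑' n : ℕ, ((d3 n * ((n : ℝ) * l / h) ^ k * Real.exp (-((n : ℝ) * l / h / Y)) : ℝ) : ℂ) * rc h n

/-- `ψ(h) = ∏_{p^a || h} (1 + a (1 - 1/p))` -/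
def psi (h : ℕ) : ℝ := h.factorization.prod fun p a => 1 + (a : ℝ) * (1 - 1 / (p : ℝ))

/-- `hq(h) = ∏_{p^a || h, a ≥ 2} p^a` -/
def hq (h : ℕ) : ℝ := h.factorization.prod fun p a => if 2 ≤ a then (p : ℝ) ^ a else 1

/-- multiplicative majorant of the error terms -/
def Em (h : ℕ) : ℝ := h.factorization.prod fun p a =>
  1 + (1 + Real.log p) ^ 2 * (if a = 1 then 1 / (p : ℝ) else (a : ℝ) ^ 2)

/-- `Q(h) = Σ_{p | h} log² p` -/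
def Qf (h : ℕ) : ℝ := ∑ p ∈ h.primeFactors, Real.log p ^ 2

/-- local coefficients of `ρ` -/
def rloc (p a v : ℕ) : ℝ :=
  if v + 1 = a then -((a : ℝ) * (a + 1) / 2) / (p - 1)
  else if v = a then ((a : ℝ) + 1) * (a + 2) / 2 + 3 * ((a : ℝ) * (a + 1) / 2) / (p - 1)
  else if v = a + 1 then -((a : ℝ) * (a + 2)) - 3 * ((a : ℝ) * (a + 1) / 2) / (p - 1)
  else if v = a + 2 then (a : ℝ) * (a + 1) / 2 + ((a : ℝ) * (a + 1) / 2) / (p - 1)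
  else 0

/-- `d3(n) c_h(n)/φ(h) = Σ_{e | n} ρ(h,e) d3(n/e)` -/
def rho (h e : ℕ) : ℝ :=
  if e ≠ 0 ∧ e.primeFactors ⊆ h.primeFactors then
    ∏ p ∈ h.primeFactors, rloc p (h.factorization p) (e.factorization p)
  else 0

/-- `V_k(u) = (1/k!) Σ d3(m) (m/u)^k e^{-m/u}` -/
def Vk (k : ℕ) (u : ℝ) : ℝ :=
  (∑' m : ℕ, d3 m * ((m : ℝ) / u) ^ k * Real.exp (-((m : ℝ) / u))) / (k.factorial : ℝ)

/-- the sum `Σ_{xy=b} e((m1 x + m2 y)/h)` over `ZMod h` -/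
def Rs (h : ℕ) [NeZero h] (b m1 m2 : ZMod h) : ℂ :=
  ∑ x : ZMod h, ∑ y : ZMod h, if x * y = b then ZMod.stdAddChar (m1 * x + m2 * y) else 0

/-- bound `C p^κ` for Kloosterman sums modulo primes -/
def KB (κ : ℝ) : Prop := ∃ C : ℝ, ∀ (p : ℕ) [Fact p.Prime] (a b : ZMod p), a ≠ 0 → b ≠ 0 →
  ‖∑ x : (ZMod p)ˣ, (ZMod.stdAddChar (a * (x : ZMod p) + b * ((x⁻¹ : (ZMod p)ˣ) : ZMod p)) : ℂ)‖ ≤
    C * (p : ℝ) ^ κ

/-- the weight of the two dimensional Karamata theorem -/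
def w1 (b : Fin 2 → ℕ) : ℝ :=
  if Nat.Coprime (b 0) (b 1) ∧ b 0 ≠ 0 ∧ b 1 ≠ 0 then psi (b 0) ^ 2 / ((b 0 : ℝ) * (b 1 : ℝ)) else 0

/-- the same with `Q` -/
def w1Q (b : Fin 2 → ℕ) : ℝ := w1 b * Qf (b 0)

/-- three-variable Hurwitz function -/
def EE (h : ℕ) [NeZero h] (Φ : ZMod h → ZMod h → ZMod h → ℂ) (s : ℂ) : ℂ :=
  (h : ℂ) ^ (-(3 * s)) * ∑ x : ZMod h, ∑ y : ZMod h, ∑ z : ZMod h, Φ x y z *
    (HurwitzZeta.hurwitzZeta (ZMod.toAddCircle x) s *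
      HurwitzZeta.hurwitzZeta (ZMod.toAddCircle y) s *
      HurwitzZeta.hurwitzZeta (ZMod.toAddCircle z) s)

/-- the Dirichlet coefficients of `EE` -/
def FF (h : ℕ) [NeZero h] (Φ : ZMod h → ZMod h → ZMod h → ℂ) (n : ℕ) : ℂ :=
  ∑ x ∈ n.divisorsAntidiagonal, ∑ y ∈ x.2.divisorsAntidiagonal,
    Φ (x.1 : ZMod h) (y.1 : ZMod h) (y.2 : ZMod h)

/-- zero sums in each variable -/
def ZS (h : ℕ) [NeZero h] (Φ : ZMod h → ZMod h → ZMod h → ℂ) : Prop :=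
  (∀ y z, ∑ x, Φ x y z = 0) ∧ (∀ x z, ∑ y, Φ x y z = 0) ∧ (∀ x y, ∑ z, Φ x y z = 0)

/-- bound of the Fourier transform -/
def FB (h : ℕ) [NeZero h] (Φ : ZMod h → ZMod h → ZMod h → ℂ) (B : ℝ) : Prop :=
  ∀ m1 m2 m3 : ZMod h,
    ‖∑ x : ZMod h, ∑ y : ZMod h, ∑ z : ZMod h, Φ x y z *
        (ZMod.stdAddChar (m1 * x + m2 * y + m3 * z) : ℂ)‖ ≤
      B * Real.sqrt (Nat.gcd m1.val h) * Real.sqrt (Nat.gcd m2.val h)

end

end Pool.Agent.H306R2.SM
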